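import Pool.Agent.H.MP_55c352_al.Defs

set_option autoImplicit false

namespace Pool.Agent.H.MP_55c352_al

open scoped LinearAlgebra.Projectivization Matrix
open Filter Topology Projectivization

/-- the space -/
abbrev V := Fin 3 → ℝ

/-- projection of `x` on the line of `v` -/
noncomputable def G (x v : V) : V := (v ⬝ᵥ x / v ⬝ᵥ v) • v

theorem G_smul (x v : V) {c : ℝ} (hc : c ≠ 0) : G x (c • v) = G x v := by
  simp only [G, smul_dotProduct, dotProduct_smul, smul_smul, smul_eq_mul]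
  congr 1
  by_cases h : v ⬝ᵥ v = 0
  · simp [h]
  · field_simp

theorem G_self {x : V} (hx : x ≠ 0) : G x x = x := by
  rw [G, div_self (by simpa using hx), one_smul]

theorem G_cont {X : Type} [TopologicalSpace X] (x : V) {f : X → V} (hf : Continuous f)
    (h : ∀ a, f a ≠ 0) : Continuous fun a => G x (f a) :=
  ((hf.dotProduct continuous_const).div (hf.dotProduct hf) fun a => by simpa using h a).smul hf

/-- `G` on projective space -/
noncomputable def GG (x : V) (z : ℙ ℝ V) : V := G x z.rep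

theorem GG_mk (x : V) {v : V} (hv : v ≠ 0) : GG x (mk ℝ v hv) = G x v := by
  obtain ⟨a, ha⟩ := exists_smul_eq_mk_rep ℝ v hv
  rw [GG, ← ha, Units.smul_def, G_smul _ _ a.ne_zero]

theorem GG_cont (x : V) : Continuous (GG x) := by
  refine continuous_coinduced_dom.mpr ?_
  have : GG x ∘ mk' ℝ = fun v => G x v.1 := funext fun v => GG_mk x v.2
  rw [this]
  exact G_cont x continuous_subtype_val fun a => a.2

theorem mk_cont {X : Type} [TopologicalSpace X] {f : X → V} (hf : Continuous f) (h : ∀ a, f a ≠ 0) :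
    Continuous fun a => mk ℝ (f a) (h a) :=
  (continuous_coinduced_rng (f := mk' ℝ)).comp (hf.subtype_mk h)

theorem tendsto_mk {ι : Type} {l : Filter ι} {v : ι → V} (hv : ∀ k, v k ≠ 0) (c : ι → ℝ) {x : V}
    (hx : x ≠ 0) (h : Tendsto (fun k => c k • v k) l (𝓝 x)) :
    Tendsto (fun k => mk ℝ (v k) (hv k)) l (𝓝 (mk ℝ x hx)) := by
  classical
  let u : ι → {v : V // v ≠ 0} := fun k => if h : c k • v k ≠ 0 then ⟨_, h⟩ else ⟨x, hx⟩
  have h1 := h.eventually_ne hx
  have h2 : Tendsto u l (𝓝 ⟨x, hx⟩) :=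
    tendsto_subtype_rng.mpr (h.congr' (h1.mono fun k hk => by simp only [u, dif_pos hk]))
  refine (((continuous_coinduced_rng (f := mk' ℝ)).tendsto _).comp h2).congr'
    (h1.mono fun k hk => ?_)
  simp only [u, Function.comp, dif_pos hk, mk'_eq_mk]
  exact (mk_eq_mk_iff' ℝ _ _ _ _).mpr ⟨c k, rfl⟩

theorem act_mk (g : V ≃ₗ[ℝ] V) {v : V} (hv : v ≠ 0) :
    act g (mk ℝ v hv) = mk ℝ (g v) (by simpa using hv) := rfl

/-- the Coxeter matrix -/
def M0 : CoxeterMatrix (Fin 3) where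
  M := !![1, 0, 2; 0, 1, 3; 2, 3, 1]

/-- the Gram matrix -/
noncomputable def B0 : Matrix (Fin 3) (Fin 3) ℝ := !![1, -1, 0; -1, 1, -1 / 2; 0, -1 / 2, 1]

/-- the generators -/
def A0 : Fin 3 → Matrix (Fin 3) (Fin 3) ℤ :=
  ![!![-1, 2, 0; 0, 1, 0; 0, 0, 1], !![1, 0, 0; 2, -1, 1; 0, 0, 1], !![1, 0, 0; 0, 1, 0; 0, 1, -1]]

theorem A0_lift : M0.IsLiftable A0 := by
  unfold CoxeterMatrix.IsLiftable; decide

/-- the integral representation -/
noncomputable def R : M0.Group →* Matrix (Fin 3) (Fin 3) ℝ :=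
  (Int.castRingHom ℝ).mapMatrix.toMonoidHom.comp (M0.toCoxeterSystem.lift ⟨A0, A0_lift⟩)

theorem R_int (w : M0.Group) (i j : Fin 3) : ∃ a : ℤ, R w i j = a := ⟨_, rfl⟩

theorem R_simple (i : Fin 3) : R (M0.simple i) = (A0 i).map Int.cast :=
  congrArg (fun A : Matrix (Fin 3) (Fin 3) ℤ => A.map Int.cast)
    (M0.toCoxeterSystem.lift_apply_simple A0_lift i)

/-- the action -/
noncomputable def ρ : M0.Group →* (V ≃ₗ[ℝ] V) :=
  (LinearMap.GeneralLinearGroup.generalLinearEquiv ℝ V).toMonoidHom.comp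
    ((Matrix.toLinAlgEquiv' (R := ℝ) (n := Fin 3)).toMulEquiv.toMonoidHom.comp R).toHomUnits

theorem ρ_apply (w : M0.Group) (v : V) : ρ w v = R w *ᵥ v := rfl

theorem isLor : IsLor M0 B0 ρ := by
  refine ⟨?_, ?_, ?_, ⟨!![1, 2, 0; 0, 2, 0; 0, 1, 1], 1, by simp [Matrix.det_fin_three], ?_⟩, ?_⟩
  · ext i j; fin_cases i <;> fin_cases j <;> simp [B0]
  · intro s t; fin_cases s <;> fin_cases t <;> simp [M0, B0, neg_div]
  · intro s t; fin_cases s <;> fin_cases t <;> simp [M0, B0]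
  · ext i j; fin_cases i <;> fin_cases j <;>
      simp [B0, Matrix.mul_apply, Fin.sum_univ_three, Matrix.vecMul, dotProduct] <;> norm_num
  · intro s v
    rw [ρ_apply, R_simple]
    ext i; fin_cases s <;> fin_cases i <;>
      simp [A0, B0, Matrix.mulVec, dotProduct, Fin.sum_univ_three] <;> ring

theorem R_inv (w : M0.Group) : (R w)ᵀ * B0 * R w = B0 := by
  induction w using M0.toCoxeterSystem.simple_induction_left with
  | one => simp
  | mul_simple_left w i ih =>
    have : (R (M0.simple i))ᵀ * B0 * R (M0.simple i) = B0 := by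
      rw [R_simple]
      ext j k; fin_cases i <;> fin_cases j <;> fin_cases k <;>
        simp [A0, B0, Matrix.mul_apply, Fin.sum_univ_three, Matrix.vecMul, dotProduct] <;> norm_num
    rw [map_mul, Matrix.transpose_mul]
    conv_rhs => rw [← ih, ← this]
    simp only [Matrix.mul_assoc]; rfl

/-- the quadratic form -/
noncomputable def q (v : V) : ℝ := v ⬝ᵥ B0 *ᵥ v

theorem q_eq (v : V) : q v = (v 0 - v 1) ^ 2 + v 2 ^ 2 - v 1 * v 2 := by
  simp [q, B0, Matrix.mulVec, dotProduct, Fin.sum_univ_three]; ring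

theorem q_smul (c : ℝ) (v : V) : q (c • v) = c ^ 2 * q v := by simp [q_eq]; ring

theorem q_cont : Continuous q := by
  rw [funext q_eq]; fun_prop

theorem q_ρ (w : M0.Group) (v : V) : q (ρ w v) = q v := by
  rw [q, q, ρ_apply, Matrix.mulVec_mulVec, ← Matrix.vecMul_transpose, ← Matrix.dotProduct_mulVec,
    Matrix.mulVec_mulVec, ← Matrix.mul_assoc, R_inv]

theorem cayley (w : M0.Group) : ∃ (d : ℝ) (t : ℤ), d ^ 2 = 1 ∧
    (R w - d • 1) * (R w ^ 2 - (t : ℝ) • R w + 1) = 0 := by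
  have hB : B0.det ≠ 0 := by simp [B0, Matrix.det_fin_three]
  have h1 := congrArg Matrix.det (R_inv w)
  rw [Matrix.det_mul, Matrix.det_mul, Matrix.det_transpose] at h1
  have h2 : (R w).det ^ 2 = 1 := mul_right_cancel₀ hB (by linear_combination h1)
  have h3 : R w * R w⁻¹ = 1 := by rw [← map_mul, mul_inv_cancel, map_one]
  have h4 : (R w).adjugate = (R w).det • R w⁻¹ := by
    rw [← Matrix.mul_one (R w).adjugate, ← h3, ← Matrix.mul_assoc, Matrix.adjugate_mul,
      Matrix.smul_mul, Matrix.one_mul]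
  have h5 : (R w⁻¹).trace = (R w).trace := by
    have a1 : B0 * R w⁻¹ = (R w)ᵀ * B0 := by
      conv_lhs => rw [← R_inv w]
      rw [Matrix.mul_assoc, h3, Matrix.mul_one]
    have a2 := Matrix.nonsing_inv_mul B0 (Ne.isUnit hB)
    rw [← Matrix.one_mul (R w⁻¹), ← a2, Matrix.mul_assoc, a1, Matrix.trace_mul_comm,
      Matrix.mul_assoc, Matrix.mul_nonsing_inv B0 (Ne.isUnit hB), Matrix.mul_one,
      Matrix.trace_transpose]
  have h6 : ∀ A : Matrix (Fin 3) (Fin 3) ℝ,
      A ^ 3 - A.trace • A ^ 2 + A.adjugate.trace • A - A.det • 1 = 0 := fun A => by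
    ext i j
    fin_cases i <;> fin_cases j <;>
      simp [pow_succ, Matrix.mul_apply, Fin.sum_univ_three, Matrix.trace_fin_three,
        Matrix.adjugate_fin_three, Matrix.det_fin_three] <;> ring
  have h7 := h6 (R w)
  rw [h4, Matrix.trace_smul, h5] at h7
  obtain ⟨d, hd⟩ : ∃ d : ℤ, (R w).det = d := by
    rcases mul_self_eq_one_iff.mp ((sq _).symm.trans h2) with h | h
    exacts [⟨1, by simp [h]⟩, ⟨-1, by simp [h]⟩]
  choose a ha using R_int w
  refine ⟨_, a 0 0 + a 1 1 + a 2 2 - d, h2, ?_⟩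
  have h8 : ((a 0 0 + a 1 1 + a 2 2 - d : ℤ) : ℝ) = (R w).trace - (R w).det := by
    rw [Matrix.trace_fin_three, ha, ha, ha, hd]; push_cast; ring
  rw [h8, ← h7]
  simp only [sub_mul, mul_add, mul_sub, smul_mul_assoc, mul_smul_comm, one_mul, mul_one, smul_smul,
    ← pow_two, ← pow_succ', smul_eq_mul, smul_sub, smul_add, sub_smul, h2]
  module

end Pool.Agent.H.MP_55c352_al
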