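import Pool.Agent.H.MP_55c352_al.A

set_option autoImplicit false

namespace Pool.Agent.H.MP_55c352_al

open scoped LinearAlgebra.Projectivization Matrix
open Filter Topology Projectivization

section lim

variable {A : Matrix (Fin 3) (Fin 3) ℝ} {c : ℕ → ℝ} {m : ℕ → ℕ} {k : ℝ}

variable (A c m) in
/-- limit along rescaled powers -/
def Lim (y y' : V) : Prop := Tendsto (fun j => c j • (A ^ m j *ᵥ y)) atTop (𝓝 y')

theorem Lim.mul {y y' : V} (h : Lim A c m y y') (a : ℝ) :
    Lim A c m ((A - a • 1) *ᵥ y) ((A - a • 1) *ᵥ y') := by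
  refine (((continuous_const.matrix_mulVec continuous_id).tendsto y').comp h).congr fun j => ?_
  have : Commute (A ^ m j) (A - a • 1) :=
    ((Commute.refl A).sub_right ((Commute.one_right A).smul_right a)).pow_left _
  simp only [Function.comp, id, Matrix.mulVec_smul, Matrix.mulVec_mulVec, this.eq]

theorem eig_pow {z : V} {l : ℝ} (h : A *ᵥ z = l • z) (n : ℕ) : A ^ n *ᵥ z = l ^ n • z := by
  induction n with
  | zero => simp
  | succ n ih => rw [pow_succ', ← Matrix.mulVec_mulVec, ih, Matrix.mulVec_smul, h, smul_smul, pow_succ]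

theorem fix_pow {z : V} (h : A *ᵥ z = z) (n : ℕ) : A ^ n *ᵥ z = z := by
  rw [eig_pow (l := 1) (by rw [h, one_smul]), one_pow, one_smul]

theorem E1 (hm : Tendsto m atTop atTop) (hc : Tendsto (fun j => |c j|) atTop (𝓝 k)) (hk : 0 < k)
    {z z' : V} {l : ℝ} (h : A *ᵥ z = l • z) (hl : 1 < |l|) (L : Lim A c m z z') : z = 0 := by
  by_contra hz
  refine not_tendsto_nhds_of_tendsto_atTop ((hc.pos_mul_atTop hk
    ((tendsto_pow_atTop_atTop_of_one_lt hl).comp hm)).atTop_mul_const (norm_pos_iff.mpr hz)) _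
    (L.norm.congr fun j => ?_)
  simp [eig_pow h, norm_smul, mul_assoc]

theorem E2 (hm : Tendsto m atTop atTop) (hc : Tendsto (fun j => |c j|) atTop (𝓝 k))
    {z z' : V} {l : ℝ} (h : A *ᵥ z = l • z) (hl : |l| < 1) (L : Lim A c m z z') : z' = 0 := by
  have := tendsto_nhds_unique ((hc.mul ((tendsto_pow_atTop_nhds_zero_of_lt_one (abs_nonneg l)
    hl).comp hm)).mul_const ‖z‖) (L.norm.congr fun j => by simp [eig_pow h, norm_smul, mul_assoc])
  simpa using this.symm

theorem E3 (hm : Tendsto m atTop atTop) (hc : Tendsto (fun j => |c j|) atTop (𝓝 k)) (hk : 0 < k)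
    {y y' : V} {l : ℝ} (hl : l ^ 2 = 1) (h : (A - l • 1) *ᵥ ((A - l • 1) *ᵥ y) = 0)
    (L : Lim A c m y y') : (A - l • 1) *ᵥ y = 0 := by
  set z := (A - l • 1) *ᵥ y with hz
  have h1 : A *ᵥ z = l • z := by simpa [Matrix.sub_mulVec, Matrix.smul_mulVec, sub_eq_zero] using h
  have h2 : A *ᵥ y = l • y + z := by simp [hz, Matrix.sub_mulVec, Matrix.smul_mulVec]
  have h3 : ∀ n : ℕ, A ^ n *ᵥ y = l ^ n • y + (n * l ^ (n + 1)) • z := fun n => by
    induction n with
    | zero => simp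
    | succ n ih =>
      rw [pow_succ', ← Matrix.mulVec_mulVec, ih, Matrix.mulVec_add, Matrix.mulVec_smul,
        Matrix.mulVec_smul, h1, h2]
      match_scalars
      · ring
      · linear_combination (-l ^ n) * hl
  have h4 : |l| = 1 := by rwa [← sq_abs, pow_eq_one_iff_of_nonneg (abs_nonneg l) two_ne_zero] at hl
  have h5 : Tendsto (fun j => ((m j : ℝ))⁻¹) atTop (𝓝 0) :=
    tendsto_inv_atTop_nhds_zero_nat.comp hm
  have h6 : Tendsto (fun j => ((m j : ℝ))⁻¹ • c j • l ^ m j • y) atTop (𝓝 0) := by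
    rw [tendsto_zero_iff_norm_tendsto_zero]
    simpa [norm_smul, h4, mul_assoc] using (h5.mul hc).mul_const ‖y‖
  have h7 := tendsto_nhds_unique (hc.mul_const ‖z‖) (((h5.smul L).sub h6).norm.congr' (by
    filter_upwards [hm.eventually_ne_atTop 0] with j hj
    rw [h3, smul_add, smul_add, add_sub_cancel_left]
    simp [norm_smul, h4]
    field_simp))
  simpa [hk.ne'] using h7

theorem key (hm : Tendsto m atTop atTop) (hc : Tendsto (fun j => |c j|) atTop (𝓝 k)) (hk : 0 < k)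
    {d : ℝ} {t : ℤ} (hd : d ^ 2 = 1) (hA : (A - d • 1) * (A ^ 2 - (t : ℝ) • A + 1) = 0) {p x : V}
    (L : Lim A c m p x) : A ^ 12 *ᵥ p = p ∨ (A - d • 1) *ᵥ x = 0 := by
  have fac : ∀ a b : ℝ, a * b = 1 → a + b = t →
      (A - a • 1) *ᵥ ((A - b • 1) *ᵥ ((A - d • 1) *ᵥ p)) = 0 := fun a b h1 h2 => by
    have : (A - a • 1) * ((A - b • 1) * (A - d • 1)) = (A - d • 1) * (A ^ 2 - (t : ℝ) • A + 1) := by
      simp only [sub_mul, mul_add, mul_sub, smul_mul_assoc, mul_smul_comm, one_mul, mul_one,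
        smul_smul, pow_two, ← h2, smul_sub]
      match_scalars <;> first | ring1 | linear_combination (-d) * h1 | linear_combination h1
    rw [Matrix.mulVec_mulVec, Matrix.mulVec_mulVec, Matrix.mul_assoc, this, hA, Matrix.zero_mulVec]
  have sub0 : ∀ (a : ℝ) (z : V), (A - a • 1) *ᵥ z = 0 → A *ᵥ z = a • z := fun a z h => by
    simpa [Matrix.sub_mulVec, Matrix.smul_mulVec, sub_eq_zero] using h
  rcases lt_trichotomy |t| 2 with h | h | h
  · left
    have h1 : Polynomial.aeval A ((Polynomial.X - Polynomial.C d) *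
        (Polynomial.X ^ 2 - Polynomial.C (t : ℝ) * Polynomial.X + 1)) = 0 := by
      simp only [map_mul, map_sub, map_add, map_pow, Polynomial.aeval_X, Polynomial.aeval_C, map_one,
        Algebra.algebraMap_eq_smul_one, smul_mul_assoc, one_mul]
      exact hA
    suffices ∃ Q, (Polynomial.X ^ 12 - 1 : Polynomial ℝ) = (Polynomial.X - Polynomial.C d) *
        (Polynomial.X ^ 2 - Polynomial.C (t : ℝ) * Polynomial.X + 1) * Q by
      obtain ⟨Q, hQ⟩ := this
      have := congrArg (Polynomial.aeval A) hQ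
      rw [map_mul, h1, zero_mul] at this
      simp only [map_sub, map_pow, Polynomial.aeval_X, map_one, sub_eq_zero] at this
      rw [this, Matrix.one_mulVec]
    obtain ⟨h2, h3⟩ := abs_lt.mp h
    set X : Polynomial ℝ := Polynomial.X
    rcases mul_self_eq_one_iff.mp ((sq _).symm.trans hd) with rfl | rfl <;> interval_cases t <;>
      simp only [Int.cast_neg, Int.cast_one, Int.cast_zero, map_one, map_neg, map_zero]
    exacts [⟨(1 + X ^ 3) * (1 + X ^ 6), by ring⟩, ⟨(1 + X) * (1 + X ^ 4 + X ^ 8), by ring⟩,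
      ⟨(1 + 2 * X + 2 * X ^ 2 + X ^ 3) * (1 + X ^ 6), by ring⟩,
      ⟨(-1 + 2 * X - 2 * X ^ 2 + X ^ 3) * (1 + X ^ 6), by ring⟩,
      ⟨(X - 1) * (1 + X ^ 4 + X ^ 8), by ring⟩, ⟨(X ^ 3 - 1) * (1 + X ^ 6), by ring⟩]
  · left
    have h1 : ((t : ℝ) / 2) ^ 2 = 1 := by
      rw [div_pow, ← sq_abs, ← Int.cast_abs, h]; norm_num
    set l := (t : ℝ) / 2
    have h2 := E3 hm hc hk h1 (fac l l (by rw [← sq, h1]) (by simp [l])) (L.mul d)
    have h3 : A ^ 2 *ᵥ p = p := by
      rcases sq_eq_sq_iff_eq_or_eq_neg.mp (h1.trans hd.symm) with h4 | h4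
      · rw [h4] at h2
        rw [eig_pow (sub0 _ _ (E3 hm hc hk hd h2 L)), hd, one_smul]
      · rw [h4, Matrix.mulVec_mulVec] at h2
        have : (A - (-d) • 1) * (A - d • 1) = A ^ 2 - 1 := by
          simp only [sub_mul, mul_sub, smul_mul_assoc, mul_smul_comm, one_mul, mul_one,
            smul_smul, pow_two]
          match_scalars <;> first | ring1 | linear_combination (-1) * hd | linear_combination hd
        rwa [this, Matrix.sub_mulVec, Matrix.one_mulVec, sub_eq_zero] at h2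
    rw [show 12 = 2 * 6 from rfl, pow_mul, fix_pow h3]
  · right
    have h1 : (2 : ℝ) < |(t : ℝ)| := by exact_mod_cast h
    obtain ⟨a, b, h2, h3, h4⟩ : ∃ a b : ℝ, a * b = 1 ∧ a + b = t ∧ 1 < |a| := by
      have h5 : (0 : ℝ) ≤ t ^ 2 - 4 := by rw [← sq_abs]; nlinarith
      have h6 := Real.sq_sqrt h5
      have h7 := Real.sqrt_nonneg ((t : ℝ) ^ 2 - 4)
      rcases lt_abs.mp h1 with h8 | h8
      · exact ⟨(t + √(t ^ 2 - 4)) / 2, (t - √(t ^ 2 - 4)) / 2, by linear_combination (-1 / 4) * h6,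
          by ring, lt_abs.mpr (Or.inl (by linarith))⟩
      · exact ⟨(t - √(t ^ 2 - 4)) / 2, (t + √(t ^ 2 - 4)) / 2, by linear_combination (-1 / 4) * h6,
          by ring, lt_abs.mpr (Or.inr (by linarith))⟩
    have h5 := E1 hm hc hk (sub0 _ _ (fac a b h2 h3)) h4 ((L.mul d).mul b)
    refine E2 hm hc (sub0 _ _ h5) ?_ (L.mul d)
    have := congrArg abs h2
    rw [abs_mul, abs_one] at this
    nlinarith [abs_nonneg b]

end lim

/-- integrally independent coordinates -/
def Ind (x : V) : Prop := ∀ a b c : ℤ, a * x 0 + b * x 1 + c * x 2 = 0 → a = 0 ∧ b = 0 ∧ c = 0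

theorem no_pow {x : V} (hx : x ≠ 0) (hq : 0 < q x) (hI : Ind x) (w : M0.Group) (p : ℙ ℝ V)
    (k : ℕ → ℤ) (hk : StrictMono k) (hi : Function.Injective fun j => act (ρ (w ^ k j)) p) :
    ¬ Tendsto (fun j => act (ρ (w ^ k j)) p) atTop (𝓝 (mk ℝ x hx)) := by
  intro h
  induction p using Projectivization.ind with
  | h p hp =>
  let m : ℕ → ℕ := fun j => (k j - k 0).toNat
  let p' := ρ (w ^ k 0) p
  have hm : ∀ j, (m j : ℤ) = k j - k 0 := fun j =>
    Int.toNat_of_nonneg (sub_nonneg.mpr (hk.monotone (Nat.zero_le j)))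
  have hm' : StrictMono m := fun i j hij => by
    have := hk hij
    have := hm i
    have := hm j
    omega
  have e : ∀ j, ρ (w ^ k j) p = R w ^ m j *ᵥ p' := fun j => by
    rw [← map_pow, ← ρ_apply, ← LinearEquiv.mul_apply, ← map_mul, ← zpow_natCast, ← zpow_add, hm,
      sub_add_cancel]
  have h1 := ((GG_cont x).tendsto _).comp h
  simp only [Function.comp_def, act_mk, GG_mk, G_self hx] at h1
  obtain ⟨c, hc⟩ : ∃ c : ℕ → ℝ, ∀ j, G x (ρ (w ^ k j) p) = c j • ρ (w ^ k j) p := ⟨_, fun _ => rfl⟩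
  simp only [hc] at h1
  have h2 := (q_cont.tendsto _).comp h1
  simp only [Function.comp_def, q_smul, q_ρ] at h2
  have h3 : 0 < q p := by
    by_contra h3
    exact hq.not_ge (le_of_tendsto' h2 fun j => by nlinarith [sq_nonneg (c j)])
  have h4 : Tendsto (fun j => |c j|) atTop (𝓝 √(q x / q p)) := by
    simpa [mul_div_assoc, h3.ne', Real.sqrt_sq_eq_abs] using (h2.div_const (q p)).sqrt
  simp only [e] at h1
  obtain ⟨d, t, hd, hA⟩ := cayley w
  have h5 : R w ^ 12 *ᵥ p' = p' := by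
    refine (key hm'.tendsto_atTop h4 (by positivity) hd hA h1).elim id fun h5 => ?_
    obtain ⟨d, rfl⟩ : ∃ e : ℤ, d = e := by
      rcases mul_self_eq_one_iff.mp ((sq _).symm.trans hd) with h | h
      exacts [⟨1, by simp [h]⟩, ⟨-1, by simp [h]⟩]
    choose a ha using R_int w
    have h6 : R w = (d : ℝ) • 1 := by
      rw [← sub_eq_zero]
      ext i j
      have h7 : ∀ j, (R w - (d : ℝ) • (1 : Matrix (Fin 3) (Fin 3) ℝ)) i j =
          (a i j - if i = j then d else 0 : ℤ) := fun j => by simp [ha, Matrix.one_apply]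
      have h8 := congrFun h5 i
      simp only [Matrix.mulVec, dotProduct, Fin.sum_univ_three, h7] at h8
      obtain ⟨b1, b2, b3⟩ := hI _ _ _ h8
      rw [h7]
      fin_cases j <;> simp_all
    rw [h6, smul_pow, one_pow, show 12 = 2 * 6 from rfl, pow_mul, hd]
    simp
  have h6 : ∀ n, R w ^ n *ᵥ p' = R w ^ (n % 12) *ᵥ p' := fun n => by
    conv_lhs => rw [← Nat.mod_add_div n 12, pow_add, ← Matrix.mulVec_mulVec, pow_mul (R w) 12,
      fix_pow h5]
  obtain ⟨i, j, h7, h8⟩ := Finite.exists_ne_map_eq_of_infinite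
    fun j => (⟨m j % 12, Nat.mod_lt _ (by norm_num)⟩ : Fin 12)
  refine h7 (hi ?_)
  simp only [act_mk, e, h6 (m i), h6 (m j), Fin.mk.inj h8]

end Pool.Agent.H.MP_55c352_al
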