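import Pool.Agent.H.MP_55c352_al.B

set_option autoImplicit false

namespace Pool.Agent.H.MP_55c352_al

open scoped LinearAlgebra.Projectivization Matrix MatrixGroups
open Filter Topology Projectivization

/-- the symmetric product of two plane vectors -/
noncomputable def μ (a b c d : ℝ) : V := ![a * c + b * d - (a * d + c * b) / 2, a * c + b * d, b * d]

theorem q_μ (a b c d : ℝ) : q (μ a b c d) = (a * d - c * b) ^ 2 / 4 := by
  simp [q_eq, μ]; ring

theorem ρ0 (v : V) : ρ (M0.simple 0) v = ![-v 0 + 2 * v 1, v 1, v 2] := by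
  rw [ρ_apply, R_simple]
  ext i; fin_cases i <;> simp [A0, Matrix.mulVec, dotProduct, Fin.sum_univ_three]

theorem ρ1 (v : V) : ρ (M0.simple 1) v = ![v 0, 2 * v 0 - v 1 + v 2, v 2] := by
  rw [ρ_apply, R_simple]
  ext i; fin_cases i <;> simp [A0, Matrix.mulVec, dotProduct, Fin.sum_univ_three]; ring

theorem ρ2 (v : V) : ρ (M0.simple 2) v = ![v 0, v 1, v 1 - v 2] := by
  rw [ρ_apply, R_simple]
  ext i; fin_cases i <;> simp [A0, Matrix.mulVec, dotProduct, Fin.sum_univ_three]; ring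

theorem good0 (g : SL(2, ℤ)) : ∃ w, ∀ x y z t : ℝ, ρ w (μ x y z t) =
    μ (g 0 0 * x + g 0 1 * y) (g 1 0 * x + g 1 1 * y) (g 0 0 * z + g 0 1 * t)
      (g 1 0 * z + g 1 1 * t) := by
  have : g ∈ Subgroup.closure {ModularGroup.S, ModularGroup.T} := by
    simp [SpecialLinearGroup.SL2Z_generators]
  induction this using Subgroup.closure_induction'' with
  | one => exact ⟨1, by simp⟩
  | mem g hg =>
    rcases hg with rfl | rfl
    · refine ⟨M0.simple 0 * M0.simple 2, fun x y z t => ?_⟩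
      rw [map_mul, LinearEquiv.mul_apply, ρ2, ρ0]
      ext i; fin_cases i <;> simp [μ, ModularGroup.coe_S] <;> ring
    · refine ⟨M0.simple 1 * M0.simple 0, fun x y z t => ?_⟩
      rw [map_mul, LinearEquiv.mul_apply, ρ0, ρ1]
      ext i; fin_cases i <;> simp [μ, ModularGroup.coe_T] <;> ring
  | inv_mem g hg =>
    rcases hg with rfl | rfl
    · refine ⟨M0.simple 2 * M0.simple 0, fun x y z t => ?_⟩
      rw [map_mul, LinearEquiv.mul_apply, ρ0, ρ2]
      ext i; fin_cases i <;> simp [μ, ModularGroup.coe_S] <;> ring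
    · refine ⟨M0.simple 0 * M0.simple 1, fun x y z t => ?_⟩
      rw [map_mul, LinearEquiv.mul_apply, ρ1, ρ0]
      ext i; fin_cases i <;> simp [μ, ModularGroup.coe_T] <;> ring
  | mul g h _ _ hg hh =>
    obtain ⟨w, hw⟩ := hg
    obtain ⟨w', hw'⟩ := hh
    refine ⟨w * w', fun x y z t => ?_⟩
    rw [map_mul, LinearEquiv.mul_apply, hw', hw]
    simp only [Matrix.SpecialLinearGroup.coe_mul, Matrix.mul_apply, Fin.sum_univ_two]
    push_cast
    congr 1 <;> ring

theorem good (a b c d : ℤ) (h : a * d - b * c = 1) : ∃ w, ∀ x y z t : ℝ, ρ w (μ x y z t) =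
    μ (a * x + b * y) (c * x + d * y) (a * z + b * t) (c * z + d * t) := by
  simpa using good0 ⟨!![a, b; c, d], by simpa [Matrix.det_fin_two] using h⟩

theorem rat_col (r : ℚ) : ∃ a b c d : ℤ, a * d - b * c = 1 ∧ d ≠ 0 ∧ (b : ℝ) / d = r := by
  obtain ⟨a, c, h⟩ := Nat.isCoprime_iff_coprime.mpr r.reduced.symm
  refine ⟨a, r.num, -c * r.num.sign, r.den, ?_, by simp, by rw [Rat.cast_def]; simp⟩
  rw [← h, ← Int.sign_mul_self r.num]; ring

/-- the base points -/
noncomputable def pt (t : ℝ) : V := μ t 1 1 0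

theorem pt_ne (t : ℝ) : pt t ≠ 0 := fun h => by
  have := q_μ t 1 1 0
  rw [← pt, h, q_eq] at this
  norm_num at this

theorem μ_ne (a c : ℝ) : μ a 1 c 1 ≠ 0 := fun h => by simpa [μ] using congrFun h 2

theorem dense_U {α : ℝ} (hα : Irrational α) (β : ℝ) {ε : ℝ} (hε : 0 < ε) :
    Dense {t | ∃ w, ‖G (μ α 1 β 1) (ρ w (pt t)) - μ α 1 β 1‖ < ε} := by
  set x := μ α 1 β 1 with hx
  have h1 : Continuous fun s => ‖G x (μ α 1 s 1) - x‖ :=
    ((G_cont x (by unfold μ; fun_prop) fun s => μ_ne α s).sub continuous_const).norm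
  have h2 : IsOpen {s | ‖G x (μ α 1 s 1) - x‖ < ε} := isOpen_lt h1 continuous_const
  obtain ⟨r, hr⟩ := Rat.denseRange_cast.exists_mem_open h2
    ⟨β, by simpa [← hx, G_self (x := x) (μ_ne α β)] using hε⟩
  obtain ⟨a1, b1, c1, d1, e1, n1, f1⟩ := rat_col r
  refine dense_closure.mp (Rat.denseRange_cast.mono ?_)
  rintro _ ⟨s, rfl⟩
  obtain ⟨c2, b2, d2, a2, e2, n2, f2⟩ := rat_col (-s)
  have m1 : (d1 : ℝ) ≠ 0 := by exact_mod_cast n1
  have m2 : (a2 : ℝ) ≠ 0 := by exact_mod_cast n2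
  have m3 : (b1 : ℝ) - d1 * α ≠ 0 := fun h => (hα.intCast_mul n1).ne_int b1 (by linarith)
  have t1 := tendsto_add_mul_div_add_mul_atTop_nhds (𝕜 := ℝ) (a1 * a2 + b1 * d2) (c1 * a2 + d1 * d2)
    (b1 * a2) (mul_ne_zero m1 m2)
  have t2 := tendsto_add_mul_div_add_mul_atTop_nhds (𝕜 := ℝ)
    ((c1 * b2 + d1 * c2) * α - (a1 * b2 + b1 * c2)) ((a1 * a2 + b1 * d2) - (c1 * a2 + d1 * d2) * α)
    (-(b1 - d1 * α) * b2) (mul_ne_zero m3 m2)
  rw [mul_div_mul_right _ _ m2, f1] at t1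
  rw [neg_mul, neg_div, mul_div_mul_left _ _ m3, f2, Rat.cast_neg, neg_neg] at t2
  have t3 : ∀ A D : ℝ, D ≠ 0 → ∀ᶠ n : ℕ in atTop, A + D * n ≠ 0 := fun A D hD =>
    (tendsto_natCast_atTop_atTop.eventually_ne_atTop (-A / D)).mono fun n hn h =>
      hn (by field_simp; linarith)
  refine mem_closure_of_tendsto t2 ?_
  filter_upwards [t1.eventually (h2.mem_nhds hr), t3 (c1 * a2 + d1 * d2) _ (mul_ne_zero m1 m2),
    t3 ((a1 * a2 + b1 * d2) - (c1 * a2 + d1 * d2) * α) _ (mul_ne_zero m3 m2)] with n g1 g2 g3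
  obtain ⟨w, hw⟩ := good (a1 * a2 + b1 * d2 + b1 * a2 * n) (a1 * b2 + b1 * c2 + b1 * b2 * n)
    (c1 * a2 + d1 * d2 + d1 * a2 * n) (c1 * b2 + d1 * c2 + d1 * b2 * n)
    (by linear_combination (c2 * a2 - b2 * d2) * e1 + e2)
  refine ⟨w, lt_of_eq_of_lt ?_ g1⟩
  have e1' : (a1 : ℝ) * d1 - b1 * c1 = 1 := by exact_mod_cast e1
  have e2' : (c2 : ℝ) * a2 - b2 * d2 = 1 := by exact_mod_cast e2
  rw [← G_smul x (μ α 1 _ 1) (div_ne_zero g2 g3), pt, hw]
  push_cast
  set D := (a1 * a2 + b1 * d2 : ℝ) - (c1 * a2 + d1 * d2) * α + (b1 - d1 * α) * a2 * n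
  set N := ((c1 * b2 + d1 * c2) * α - (a1 * b2 + b1 * c2) : ℝ) + -((b1 - d1 * α) * b2) * n
  have u1 : ((a1 * a2 + b1 * d2 + b1 * a2 * n) * (N / D) + (a1 * b2 + b1 * c2 + b1 * b2 * n) * 1 : ℝ)
      = α / D := by
    field_simp
    simp only [N, D]
    linear_combination α * (c2 * a2 - b2 * d2) * e1' + α * e2'
  have u2 : ((c1 * a2 + d1 * d2 + d1 * a2 * n) * (N / D) + (c1 * b2 + d1 * c2 + d1 * b2 * n) * 1 : ℝ)
      = 1 / D := by
    field_simp
    simp only [N, D]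
    linear_combination (c2 * a2 - b2 * d2) * e1' + e2'
  rw [u1, u2, mul_zero, mul_zero, add_zero, add_zero, mul_one, mul_one]
  generalize (c1 * a2 + d1 * d2 + d1 * a2 * n : ℝ) = C at g2 ⊢
  generalize (a1 * a2 + b1 * d2 + b1 * a2 * n : ℝ) = A
  congr 3
  ext i; fin_cases i <;> simp [μ] <;> field_simp

theorem exists_lim : ∃ (t : ℝ) (x : V) (hx : x ≠ 0) (g : ℕ → M0.Group), 0 < q x ∧ Ind x ∧
    (Function.Injective fun k => act (ρ (g k)) (mk ℝ (pt t) (pt_ne t))) ∧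
    (∀ k, act (ρ (g k)) (mk ℝ (pt t) (pt_ne t)) ≠ mk ℝ x hx) ∧
    Tendsto (fun k => act (ρ (g k)) (mk ℝ (pt t) (pt_ne t))) atTop (𝓝 (mk ℝ x hx)) := by
  have tr := transcendental_liouvilleNumber (m := 2) le_rfl
  set α := liouvilleNumber (2 : ℕ)
  have h0 : ∀ a b c : ℤ, a * α ^ 2 + b * α + c = 0 → a = 0 ∧ b = 0 ∧ c = 0 := fun a b c h => by
    have := transcendental_iff.mp tr (Polynomial.C a * Polynomial.X ^ 2 + Polynomial.C b *
      Polynomial.X + Polynomial.C c) (by simpa using h)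
    have h2 := congrArg (·.coeff 2) this
    have h1 := congrArg (·.coeff 1) this
    have h0 := congrArg (·.coeff 0) this
    simp [-eq_intCast, Polynomial.coeff_C, Polynomial.coeff_X] at h0 h1 h2
    exact ⟨h2, h1, h0⟩
  have hα : Irrational α := (liouville_liouvilleNumber (m := 2) le_rfl).irrational
  set x := μ α 1 (2 * α) 1 with hx
  have hI : Ind x := fun a b c h => by
    have := h0 (4 * (a + b)) (-3 * a) (2 * (a + b + c)) (by
      simp [hx, μ] at h; push_cast; linear_combination 2 * h)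
    omega
  have ho : ∀ ε, IsOpen {t | ∃ w, ‖G x (ρ w (pt t)) - x‖ < ε} := fun ε => by
    rw [Set.setOf_exists]
    refine isOpen_iUnion fun w => isOpen_lt (((G_cont _ ?_ fun t => by simpa using pt_ne t).sub
      continuous_const).norm) continuous_const
    exact (ρ w).toLinearMap.continuous_of_finiteDimensional.comp (by unfold pt μ; fun_prop)
  obtain ⟨t, ht⟩ := (dense_iInter_of_isOpen (fun n : ℕ => ho _) fun n : ℕ =>
    dense_U hα (2 * α) (Nat.one_div_pos_of_nat (n := n))).nonempty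
  · have h1 : ∀ w, G x (ρ w (pt t)) ≠ x := fun w h => by
      obtain ⟨c, hc⟩ : ∃ c : ℝ, c • ρ w (pt t) = x := ⟨_, h⟩
      choose a ha using R_int w⁻¹
      have h2 : ρ w⁻¹ x = c • pt t := by
        rw [← hc, map_smul, ← LinearEquiv.mul_apply, ← map_mul, inv_mul_cancel, map_one]; rfl
      have h3 := congrFun h2 2
      simp only [ρ_apply, Matrix.mulVec, dotProduct, Fin.sum_univ_three, ha] at h3
      obtain ⟨b1, b2, b3⟩ := hI _ _ _ (h3.trans (by simp [pt, μ]))
      have h4 : R w⁻¹ * R w = 1 := by rw [← map_mul, inv_mul_cancel, map_one]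
      simpa [Matrix.mul_apply, Fin.sum_univ_three, ha, b1, b2, b3] using congrFun (congrFun h4 2) 2
    obtain ⟨u, u1, -, u2, u3⟩ := IsGLB.exists_seq_strictAnti_tendsto_of_notMem
      (t := Set.range fun w => ‖G x (ρ w (pt t)) - x‖) (x := 0)
      ⟨by rintro _ ⟨w, rfl⟩; exact norm_nonneg _, fun b hb => le_of_forall_pos_le_add fun ε hε => by
        obtain ⟨n, hn⟩ := exists_nat_one_div_lt hε
        obtain ⟨w, hw⟩ := Set.mem_iInter.mp ht n
        linarith [hb ⟨w, rfl⟩]⟩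
      (by rintro ⟨w, hw⟩; exact h1 w (by simpa [sub_eq_zero] using hw)) (Set.range_nonempty _)
    choose g hg using u3
    refine ⟨t, x, μ_ne _ _, g, ?_, hI, fun i j hij => u1.injective ?_, fun k hk => h1 (g k) ?_, ?_⟩
    · have := hα.ne_zero
      rw [hx, q_μ, show (α * 1 - 2 * α * 1) ^ 2 = α ^ 2 by ring]; positivity
    · have := congrArg (GG x) hij
      simp only [act_mk, GG_mk] at this
      rw [← hg, ← hg]; simp only [this]
    · simpa only [act_mk, GG_mk, G_self (x := x) (μ_ne _ _)] using congrArg (GG x) hk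
    · simp only [act_mk]
      refine tendsto_mk _ _ _ (tendsto_iff_norm_sub_tendsto_zero.mpr (u2.congr fun k => (hg k).symm))

end Pool.Agent.H.MP_55c352_al
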