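import Pool.Agent.H.MP_55c352_al.C

set_option autoImplicit false

namespace Pool.Agent.H.MP_55c352_al

open scoped LinearAlgebra.Projectivization Matrix
open Filter Topology Projectivization

theorem disc {S : Set (ℙ ℝ V)} {N : ℝ} (hS : ∀ z ∈ S, ∃ (v : V) (hv : v ≠ 0), z = mk ℝ v hv ∧
    q v = N ∧ ∀ i, ∃ a : ℤ, v i = a) {y : V} (hy : y ≠ 0) (h : AccPt (mk ℝ y hy) (𝓟 S)) :
    q y = 0 := by
  by_contra hq
  have hq' := abs_pos.mpr hq
  obtain ⟨K, hK⟩ := exists_nat_ge (2 * (‖y‖ + 1) ^ 2 * |N| / |q y|)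
  set T := (fun a : Fin 3 → ℤ => G y fun i => a i) '' Set.Icc (fun _ => -K) (fun _ => K) \ {y}
  have h1 : T.Finite := ((Set.finite_Icc _ _).image _).diff
  have h2 : ∀ᶠ u in 𝓝 y, (|q y| / 2 < |q u| ∧ ‖u‖ < ‖y‖ + 1) ∧ u ∈ Tᶜ :=
    ((q_cont.abs.continuousAt.eventually_const_lt (by linarith)).and
      (continuous_norm.continuousAt.eventually_lt_const (by linarith))).and
      (h1.isClosed.isOpen_compl.mem_nhds (by simp [T]))
  have h3 := (GG_cont y).tendsto (mk ℝ y hy)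
  rw [GG_mk, G_self hy] at h3
  obtain ⟨z, ⟨a1, a2⟩, ⟨a3, a4⟩, a5⟩ := ((accPt_iff_frequently.mp h).and_eventually
    (h3.eventually h2)).exists
  obtain ⟨v, hv, rfl, rfl, hi⟩ := hS z a2
  choose a ha using hi
  rw [GG_mk] at a3 a4 a5
  obtain ⟨c, hc⟩ : ∃ c : ℝ, c • v = G y v := ⟨_, rfl⟩
  have b1 : ∀ i, |a i| ≤ K := fun i => by
    have b2 := (norm_le_pi_norm _ i).trans_lt a4
    rw [← hc, q_smul, abs_mul, abs_sq] at a3
    rw [← hc, Pi.smul_apply, ha, smul_eq_mul, Real.norm_eq_abs] at b2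
    have b3 : (c * a i) ^ 2 ≤ (‖y‖ + 1) ^ 2 := sq_le_sq.mpr (b2.le.trans (le_abs_self _))
    have b4 : ((a i : ℝ)) ^ 2 ≤ K := by
      refine le_trans ?_ hK
      rw [le_div_iff₀ hq']
      nlinarith [abs_nonneg (q v), sq_nonneg (a i : ℝ), mul_le_mul_of_nonneg_right b3
        (abs_nonneg (q v)), mul_le_mul_of_nonneg_left a3.le (sq_nonneg (a i : ℝ))]
    have b5 : (a i) ^ 2 ≤ K := by exact_mod_cast b4
    exact (Int.le_self_sq _).trans (by rwa [sq_abs])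
  refine a5 ⟨⟨a, ⟨fun i => (abs_le.mp (b1 i)).1, fun i => (abs_le.mp (b1 i)).2⟩, by
    simp only [← ha]⟩, fun h4 => a1 ?_⟩
  exact ((mk_eq_mk_iff' ℝ _ _ _ _).mpr ⟨c, hc.trans h4⟩).symm

theorem T_pow (x : V) (n : ℕ) : ρ ((M0.simple 1 * M0.simple 0) ^ n) x =
    ![x 0 + 2 * n * (x 1 - x 0) + n * (n - 1) * x 2, x 1 + 2 * n * (x 1 - x 0) + n ^ 2 * x 2, x 2] := by
  induction n with
  | zero => ext i; fin_cases i <;> simp
  | succ n ih =>
    rw [pow_succ', map_mul, map_mul, LinearEquiv.mul_apply, LinearEquiv.mul_apply, ih, ρ0, ρ1]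
    ext i; fin_cases i <;> simp <;> ring

theorem T_lim {x : V} (hx : q x ≠ 0) : ∃ c : ℕ → ℝ,
    Tendsto (fun n => c n • ρ ((M0.simple 1 * M0.simple 0) ^ n) x) atTop (𝓝 (μ 1 0 1 0)) := by
  have h0 : Tendsto (fun n : ℕ => (n : ℝ)⁻¹) atTop (𝓝 0) := tendsto_inv_atTop_nhds_zero_nat
  by_cases h : x 2 = 0
  · have h1 : x 1 - x 0 ≠ 0 := fun h1 => hx (by rw [q_eq, h, ← neg_sub (x 1), h1]; simp)
    have h2 : Continuous fun u : ℝ => (![x 0 / (2 * (x 1 - x 0)) * u + 1,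
      x 1 / (2 * (x 1 - x 0)) * u + 1, 0] : V) := by fun_prop
    refine ⟨fun n => (2 * n * (x 1 - x 0))⁻¹, ((h2.tendsto' 0 _ (by simp [μ])).comp h0).congr' ?_⟩
    filter_upwards [eventually_ne_atTop 0] with n hn
    rw [T_pow]
    ext i; fin_cases i <;> simp [h] <;> field_simp
  · have h2 : Continuous fun u : ℝ => (![x 0 / x 2 * u ^ 2 + 2 * (x 1 - x 0) / x 2 * u + 1 - u,
      x 1 / x 2 * u ^ 2 + 2 * (x 1 - x 0) / x 2 * u + 1, u ^ 2] : V) := by fun_prop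
    refine ⟨fun n => (n ^ 2 * x 2)⁻¹, ((h2.tendsto' 0 _ (by simp [μ])).comp h0).congr' ?_⟩
    filter_upwards [eventually_ne_atTop 0] with n hn
    rw [T_pow]
    ext i; fin_cases i <;> simp <;> field_simp; ring

theorem cusp {x y : V} (hx : x ≠ 0) (hq : q x ≠ 0) (hy : y ≠ 0) (h : q y = 0) :
    AccPt (mk ℝ y hy) (𝓟 (Set.range fun w => act (ρ w) (mk ℝ x hx))) := by
  set S := Set.range fun w => act (ρ w) (mk ℝ x hx)
  have h1 : ∀ w (h : ρ w (μ 1 0 1 0) ≠ 0), mk ℝ _ h ∈ closure S := fun w h => by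
    obtain ⟨c, hc⟩ := T_lim (x := ρ w⁻¹ x) (by rwa [q_ρ])
    refine mem_closure_of_tendsto (tendsto_mk (l := atTop) (v := fun n => ρ (w * (M0.simple 1 * M0.simple 0) ^ n
      * w⁻¹) x) (fun n => by simpa using hx) c h ?_) (Eventually.of_forall fun n => ⟨_, rfl⟩)
    simpa [Function.comp_def] using
      ((ρ w).toLinearMap.continuous_of_finiteDimensional.tendsto _).comp hc
  have h2 : mk ℝ y hy ∈ closure S := by
    rw [q_eq] at h
    by_cases h2 : y 2 = 0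
    · have h3 : y 0 • ρ 1 (μ 1 0 1 0) = y := by
        have : y 1 = y 0 := by rw [h2] at h; nlinarith
        ext i; fin_cases i <;> simp [μ, h2, this]
      rw [(mk_eq_mk_iff' ℝ _ _ hy fun h4 => hy (by rw [← h3, h4, smul_zero])).mpr ⟨_, h3⟩]
      exact h1 1 _
    · have h3 : y 2 • μ ((y 1 - y 0) / y 2) 1 ((y 1 - y 0) / y 2) 1 = y := by
        ext i; fin_cases i <;> simp [μ] <;> field_simp <;> linear_combination h
      rw [(mk_eq_mk_iff' ℝ _ _ hy (μ_ne _ _)).mpr ⟨_, h3⟩]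
      refine Rat.denseRange_cast.induction_on (p := fun a : ℝ => mk ℝ _ (μ_ne a a) ∈ closure S) _
        (isClosed_closure.preimage (mk_cont (by unfold μ; fun_prop) _)) fun r => ?_
      obtain ⟨a, b, c, d, e1, e2, e3⟩ := rat_col r
      obtain ⟨w, hw⟩ := good b (-a) d (-c) (by linear_combination e1)
      have e4 : (d : ℝ) ≠ 0 := by exact_mod_cast e2
      have h4 : ((d : ℝ) ^ 2)⁻¹ • ρ w (μ 1 0 1 0) = μ r 1 r 1 := by
        rw [hw, ← e3]
        ext i; fin_cases i <;> simp [μ] <;> field_simp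
      rw [(mk_eq_mk_iff' ℝ _ _ (μ_ne _ _) fun h5 => μ_ne r r (by rw [← h4, h5, smul_zero])).mpr
        ⟨_, h4⟩]
      exact h1 w _
  rw [closure_eq_self_union_derivedSet] at h2
  refine h2.resolve_left ?_
  rintro ⟨w, hw⟩
  obtain ⟨c, hc⟩ := (mk_eq_mk_iff' ℝ _ _ _ _).mp hw
  exact hq (by rw [← q_ρ w, ← LinearEquiv.coe_coe, ← hc, q_smul, h, mul_zero])

theorem ρ_int (w : M0.Group) {v : V} (h : ∀ i, ∃ a : ℤ, v i = a) (i : Fin 3) :
    ∃ a : ℤ, ρ w v i = a := by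
  choose a ha using h
  choose b hb using R_int w
  exact ⟨∑ j, b i j * a j, by simp [ρ_apply, Matrix.mulVec, dotProduct, ha, hb]⟩

theorem not_closed (e : ∀ s : Fin 3, (Pi.single s 1 : V) ≠ 0) : ¬ IsClosed {x : ℙ ℝ V |
    {y | AccPt y (𝓟 (Set.range fun w => act (ρ w) x))} =
      {y | AccPt y (𝓟 {z | ∃ w s, z = act (ρ w) (mk ℝ _ (e s))})}} := by
  intro hF
  have q1 : ∀ s : Fin 3, q (Pi.single s 1) = 1 := fun s => by fin_cases s <;> simp [q_eq]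
  have h1 : ∀ y (hy : y ≠ 0), AccPt (mk ℝ y hy) (𝓟 {z | ∃ w s, z = act (ρ w) (mk ℝ _ (e s))}) ↔
      q y = 0 := fun y hy => by
    refine ⟨disc (N := 1) ?_ hy, fun h => (cusp (e 0) (by simp [q1]) hy h).mono
      (principal_mono.mpr ?_)⟩
    · rintro _ ⟨w, s, rfl⟩
      exact ⟨_, _, act_mk _ _, by rw [q_ρ, q1], ρ_int w fun i =>
        ⟨if i = s then 1 else 0, by simp [Pi.single_apply]⟩⟩
    · rintro _ ⟨w, rfl⟩
      exact ⟨w, 0, rfl⟩
  obtain ⟨t, x, hx, g, a1, -, -, a2, a3⟩ := exists_lim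
  have h2 := Rat.denseRange_cast.induction_on (p := fun a : ℝ => mk ℝ _ (pt_ne a) ∈ _) t
    (hF.preimage (mk_cont (by unfold pt μ; fun_prop) _)) fun r => ?_
  · exact a1.ne' ((h1 x hx).mp ((Set.ext_iff.mp h2 _).mp (accPt_iff_frequently.mpr
      (a3.frequently (Frequently.of_forall fun k => ⟨a2 k, _, rfl⟩)))))
  · ext y
    induction y using Projectivization.ind with
    | h y hy =>
    have b1 : q (pt r) = 1 / 4 := by simp [pt, q_μ]
    refine Iff.trans ⟨disc (N := (2 * r.den) ^ 2 * (1 / 4)) ?_ hy, cusp _ (by simp [b1]) hy⟩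
      (h1 y hy).symm
    rintro _ ⟨w, rfl⟩
    have b2 : (2 * r.den : ℝ) ≠ 0 := by simp
    refine ⟨ρ w ((2 * r.den : ℝ) • pt r), by simpa using pt_ne r,
      ((mk_eq_mk_iff' ℝ _ _ _ _).mpr ⟨2 * r.den, by simp⟩).symm, by rw [q_ρ, q_smul, b1],
      ρ_int w fun i => ?_⟩
    have b3 : (r.den : ℝ) * r = r.num := by exact_mod_cast r.den_mul_eq_num
    fin_cases i
    · exact ⟨2 * r.num - r.den, by simp [pt, μ]; linear_combination 2 * b3⟩
    · exact ⟨2 * r.num, by simp [pt, μ]; linear_combination 2 * b3⟩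
    · exact ⟨0, by simp [pt, μ]⟩

end Pool.Agent.H.MP_55c352_al
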