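import Mathlib

set_option autoImplicit false

namespace Pool.Agent.H.MP_55c352_al

open scoped LinearAlgebra.Projectivization Matrix

/-- The usual (quotient) topology of the real projective space of `V = ℝⁿ`. -/
noncomputable instance top (n : ℕ) : TopologicalSpace (ℙ ℝ (Fin n → ℝ)) :=
  TopologicalSpace.coinduced (Projectivization.mk' ℝ) inferInstance

/-- `B` is a Lorentzian Gram matrix for the Coxeter matrix `M` (entry `0` means `∞`), and `ρ` is
the geometric action `s(v) = v - 2 B(α_s, v) α_s` of the Coxeter group of `M` on `V = ℝⁿ`, with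
`α_s` the standard basis. -/
def IsLor {n : ℕ} (M : CoxeterMatrix (Fin n)) (B : Matrix (Fin n) (Fin n) ℝ)
    (ρ : M.Group →* ((Fin n → ℝ) ≃ₗ[ℝ] (Fin n → ℝ))) : Prop :=
  B.IsSymm ∧ (∀ s t, M s t ≠ 0 → B s t = - Real.cos (Real.pi / M s t)) ∧
    (∀ s t, M s t = 0 → B s t ≤ -1) ∧
    (∃ (P : Matrix (Fin n) (Fin n) ℝ) (i : Fin n), P.det ≠ 0 ∧
      Pᵀ * B * P = Matrix.diagonal fun j => if j = i then -1 else 1) ∧
    ∀ s v, ρ (M.simple s) v = v - (2 * (Pi.single s 1 ⬝ᵥ B *ᵥ v)) • Pi.single s 1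

/-- The action of a linear automorphism on projective space. -/
noncomputable def act {n : ℕ} (g : (Fin n → ℝ) ≃ₗ[ℝ] (Fin n → ℝ)) :
    ℙ ℝ (Fin n → ℝ) → ℙ ℝ (Fin n → ℝ) :=
  Projectivization.map g.toLinearMap g.injective

end Pool.Agent.H.MP_55c352_al
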